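import Pool.Agent.W656.VA9

set_option autoImplicit false

noncomputable section

namespace Pool.Agent.Results.MP_95030e_al.TorsionFreeDichotomy

/-- The kernel of right multiplication by the matrix `A` on `ℓ²(G)^m`. -/
def kernel {G : Type} [Group G] {m n : ℕ} (A : Matrix (Fin m) (Fin n) (G →₀ ℂ)) :
    Set (lp (fun _ : Fin m × G => ℂ) 2) :=
  {x | ∀ (j : Fin n) (g : G),
    ∑ i : Fin m, (A i j).sum (fun h c => x (i, g * h⁻¹) * c) = 0}

open Classical in
/-- The von Neumann dimension of this kernel: the sum over `i` of one minus the squared distance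
from the basis vector at `(i, 1)` to the kernel, that is, the trace of the projection onto the
kernel. -/
def kerDim {G : Type} [Group G] {m n : ℕ} (A : Matrix (Fin m) (Fin n) (G →₀ ℂ)) : ℝ :=
  ∑ i : Fin m, (1 - (Metric.infDist
    (lp.single 2 (i, (1 : G)) (1 : ℂ) : lp (fun _ : Fin m × G => ℂ) 2) (kernel A)) ^ 2)

/-- **Strong and weak Atiyah conjecture for torsion-free groups, all or nothing.** Let `C` be a
class of torsion-free groups closed under direct products, direct products of sequences and free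
products with free groups of finite rank (for example the class of all torsion-free groups), and
let `R` be a subring of `ℂ` (for example the rational numbers). The following are equivalent.

1. (strong Atiyah conjecture for `C`) For all `G` in `C` and all matrices `A` over `R[G]` the
   number `dim ker A` is an integer.
2. (weak Atiyah conjecture for `C`) For each `G` in `C` there is `k > 0` such that
   `k · dim ker A` is an integer for all `A` over `R[G]`.
3. For each `G` in `C` the kernel dimensions of matrices over `R[G]` are not dense in `[0, ∞)`: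
   they avoid an interval `(a, b)`, `0 ≤ a < b`, which may depend on `G`.
4. For some `ε > 0` no kernel dimension of a matrix over `R[G]`, `G` in `C`, lies in `(0, ε)`. -/
theorem result (C : (G : Type) → [Group G] → Prop)
    (htf : ∀ (G : Type) [Group G], C G → ∀ g : G, ∀ n : ℕ, 0 < n → g ^ n = 1 → g = 1)
    (hprod : ∀ (G H : Type) [Group G] [Group H], C G → C H → C (G × H))
    (hpi : ∀ (G : ℕ → Type) [∀ i, Group (G i)], (∀ i, C (G i)) → C (∀ i, G i))
    (hfree : ∀ (G : Type) [Group G] (m : ℕ), C G → C (Monoid.Coprod G (FreeGroup (Fin m))))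
    (R : Subring ℂ) :
    List.TFAE [
      ∀ (G : Type) [Group G], C G →
        ∀ (m n : ℕ) (A : Matrix (Fin m) (Fin n) (G →₀ ℂ)), (∀ i j g, A i j g ∈ R) →
          ∃ z : ℤ, kerDim A = z,
      ∀ (G : Type) [Group G], C G → ∃ k : ℕ, 0 < k ∧
        ∀ (m n : ℕ) (A : Matrix (Fin m) (Fin n) (G →₀ ℂ)), (∀ i j g, A i j g ∈ R) →
          ∃ z : ℤ, (k : ℝ) * kerDim A = z,
      ∀ (G : Type) [Group G], C G → ∃ a b : ℝ, 0 ≤ a ∧ a < b ∧
        ∀ (m n : ℕ) (A : Matrix (Fin m) (Fin n) (G →₀ ℂ)), (∀ i j g, A i j g ∈ R) →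
          ¬ (a < kerDim A ∧ kerDim A < b),
      ∃ ε : ℝ, 0 < ε ∧ ∀ (G : Type) [Group G], C G →
        ∀ (m n : ℕ) (A : Matrix (Fin m) (Fin n) (G →₀ ℂ)), (∀ i j g, A i j g ∈ R) →
          ¬ (0 < kerDim A ∧ kerDim A < ε)] := by
  tfae_have 1 → 2 := by
    intro h G _ hG
    refine ⟨1, one_pos, fun m n A hA => ?_⟩
    obtain ⟨z, hz⟩ := h G hG m n A hA
    exact ⟨z, by rw [hz]; simp⟩
  tfae_have 2 → 3 := by
    intro h G _ hG
    obtain ⟨k, hk, h1⟩ := h G hG
    have hk0 : (0 : ℝ) < k := by exact_mod_cast hk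
    refine ⟨0, 1 / k, le_rfl, by positivity, ?_⟩
    rintro m n A hA ⟨h2, h3⟩
    obtain ⟨z, hz⟩ := h1 m n A hA
    rw [lt_div_iff₀ hk0, mul_comm] at h3
    have h4 := mul_pos hk0 h2
    rw [hz] at h3 h4
    have h5 : 0 < z := by exact_mod_cast h4
    have h6 : z < 1 := by exact_mod_cast h3
    omega
  tfae_have 3 → 1 := by
    intro h G _ hG m n A hA
    refine W656.VA.single_val C htf hprod hpi hfree R ?_ G hG _ (W656.VA.val_kerDim A hA)
    intro H _ hH
    obtain ⟨a, b, ha, hab, h1⟩ := h H hH
    refine ⟨a, b, ha, hab, fun v hv => ?_⟩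
    obtain ⟨m', n', A', hA', rfl⟩ := W656.VA.exists_kerDim hv
    exact h1 m' n' A' hA'
  tfae_have 1 → 4 := by
    intro h
    refine ⟨1, one_pos, ?_⟩
    rintro G _ hG m n A hA ⟨h1, h2⟩
    obtain ⟨z, hz⟩ := h G hG m n A hA
    rw [hz] at h1 h2
    have h3 : 0 < z := by exact_mod_cast h1
    have h4 : z < 1 := by exact_mod_cast h2
    omega
  tfae_have 4 → 3 := by
    rintro ⟨ε, hε, h⟩ G _ hG
    exact ⟨0, ε, le_rfl, hε, h G hG⟩
  tfae_finish

end Pool.Agent.Results.MP_95030e_al.TorsionFreeDichotomy
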